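import Pool.Agent.TH505.HF.Fin

/-!
`1/2`-flow-pairs in all bridgeless graphs of carving width at most five.

A carving of a graph is a binary tree whose leaves are the vertices; its width is the largest number
of edges that leave the set of leaves of a subtree. Proof. A `1/2`-flow-pair is the same as an even
subgraph together with a 4-flow with values of size at least two off this subgraph. Cuts of size two
are reduced by merging one side into an end of a cut edge, which does not increase the width; the
values at the cut edge can be matched because every value is possible at every edge. In a graph
without cuts of size less than three each subtree gives a piece with three, four or five outgoing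
edges, and up to permutations of the outgoing edges and the change of all signs the set of the states
of the outgoing edges that extend to the piece contains one of 107 explicit sets (1, 7, 99 sets for
3, 4, 5 edges): the kernel checks that this family is closed under gluing two pieces.
-/

set_option autoImplicit false

namespace Pool.Agent.Results.MP_e59a69_co.CarvingWidthFive

open Pool.Agent.H160R2.HF Pool.Agent.TH505.OW

/-- Let `G` be a finite bridgeless graph; loops and parallel edges are allowed. Assume that some
binary tree `T` whose leaves are labelled bijectively by the vertices of `G` has width at most five:
for each subtree at most five edges of `G` leave the set of its leaves. Then `G` has a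
`1/2`-flow-pair, and for every edge `e` every pair of values `a`, `b` that is allowed at an edge
occurs at `e` in some `1/2`-flow-pair. -/
theorem result :
    ∀ (V E : Type) [Fintype V] [Fintype E] [DecidableEq V] [DecidableEq E] (G : OrGraph V E),
      G.Bridgeless →
      ∀ T : Tr V, T.set = Set.univ → T.Nodup → T.Width G.t G.h 5 →
      (∃ φ₂ φ₄, G.IsHalfFlowPair φ₂ φ₄) ∧
      ∀ (e : E) (a b : ℤ), |a| ≤ 1 → |b| ≤ 3 → (a = 0 → 2 ≤ |b|) →
        ∃ φ₂ φ₄, G.IsHalfFlowPair φ₂ φ₄ ∧ φ₂ e = a ∧ φ₄ e = b := by
  intro V E _ _ _ _ G hG T hT hN hW
  exact Pool.Agent.TH505.HF.final G hG T hT hN hW

end Pool.Agent.Results.MP_e59a69_co.CarvingWidthFive
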