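import Pool.Agent.TH583.FO.Main

/-!
# `1/2`-flow-pairs of bridgeless cubic graphs with few odd circuits (MP_e59a69_co)

`G : OrGraph V E` is a finite multigraph with a fixed orientation; `G.Cubic`, `G.Bridgeless`,
`G.IsTwoFactor F`, `G.cut S` (the edges with exactly one end in `S`), `G.oddCount F` (number of odd
circuits of the 2-factor `F`), `G.HasCycleIn X` (the subgraph induced by `X` contains a circuit) and
`G.IsHalfFlowPair` are the definitions of the starting files.

* `oddSets G F`: the vertex sets of the odd circuits of the 2-factor `F`.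
* `allOdd G`: the vertex sets of the odd circuits of all 2-factors of `G`.

Proof.  The vector with all entries `1 / 3` lies in Edmonds' perfect matching polytope.  If `δ(S)` has
`d` edges, `S` odd, then a perfect matching containing `δ(S)` has `d - 1` more edges in `δ(S)` than
necessary, while the average surplus is `d / 3 - 1`.  So some perfect matching has small weight, and its
complement is the 2-factor `F`.  The `1/2`-flow-pair comes from the theorems `OddnessTwo` and
`CutPairing` of the starting files.
-/

set_option autoImplicit false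

namespace Pool.Agent.Results.MP_e59a69_co.FewOddCircuits

open Finset Pool.Agent.H160R2.HF Pool.Agent.TH583.FO

/-- Let `G` be a bridgeless cubic graph.

1. For all nonnegative weights `y` of vertex sets there is a 2-factor `F` that meets every 3-edge-cut
   and whose odd circuits have total weight at most the sum of `y(S) (d(S) - 3) / (3 (d(S) - 1))` over
   all vertex sets `S` of odd circuits of 2-factors of `G`, where `d(S)` is the number of edges that
   leave `S`.
2. Let `t = 1`, or let every edge cut of `G` with circuits on both sides have at least `5 t - 1` edges.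
   If there are weights `y ≥ 0` such that the odd circuits of every 2-factor with more than `2 t` odd
   circuits (and meeting all 3-edge-cuts) have total weight at least `1`, while the sum in 1. is less
   than `1`, then `G` has a `1/2`-flow-pair.
3. In particular (`t` as in 2.) `G` has a `1/2`-flow-pair if at most `6 t + 6` vertex sets `S` with
   `d(S) ≥ 5` are vertex sets of odd circuits of 2-factors. -/
theorem result (V E : Type) [Fintype V] [Fintype E] [DecidableEq V] [DecidableEq E]
    (G : OrGraph V E) (hc : G.Cubic) (hb : G.Bridgeless) :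
    (∀ y : Finset V → ℝ, (∀ S, 0 ≤ y S) → ∃ F : Finset E, G.IsTwoFactor F ∧
      (∀ X : Finset V, (G.cut X).card = 3 → (G.cut X ∩ F).Nonempty) ∧
      ∑ S ∈ oddSets G F, y S ≤ ∑ S ∈ allOdd G,
        y S * ((((G.cut S).card : ℝ) - 3) / (3 * ((G.cut S).card - 1)))) ∧
    ∀ t : ℕ, (t = 1 ∨ ∀ X : Finset V, G.HasCycleIn X → G.HasCycleIn Xᶜ →
        5 * t - 1 ≤ (G.cut X).card) →
      ((∃ y : Finset V → ℝ, (∀ S, 0 ≤ y S) ∧
        (∀ F : Finset E, G.IsTwoFactor F →
          (∀ X : Finset V, (G.cut X).card = 3 → (G.cut X ∩ F).Nonempty) →
          2 * t < G.oddCount F → 1 ≤ ∑ S ∈ oddSets G F, y S) ∧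
        ∑ S ∈ allOdd G,
          y S * ((((G.cut S).card : ℝ) - 3) / (3 * ((G.cut S).card - 1))) < 1) →
        ∃ φ₂ φ₄ : E → ℤ, G.IsHalfFlowPair φ₂ φ₄) ∧
      (((allOdd G).filter fun S => 5 ≤ (G.cut S).card).card ≤ 6 * t + 6 →
        ∃ φ₂ φ₄ : E → ℤ, G.IsHalfFlowPair φ₂ φ₄) := by
  refine ⟨fun y hy => factor G hc hb y hy, fun t ht => ⟨?_, fun h => count G hc hb t ht h⟩⟩
  rintro ⟨y, hy, h1, h2⟩
  exact main G hc hb t ht y hy h1 h2

end Pool.Agent.Results.MP_e59a69_co.FewOddCircuits
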