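import Pool.Agent.TH499.NF.Cor

set_option autoImplicit false

/-!
# `1/2`-flow-pairs of graphs which get a nowhere-zero 4-flow by adding an edge (MP_e59a69_co)

Jaeger proved that a bridgeless graph which gets a nowhere-zero 4-flow by adding an edge `uv` has a
nowhere-zero 5-flow.  We prove that such a graph has even a `1/2`-flow-pair, unless it has a
3-edge-cut such that neither of the two graphs obtained by contracting one side has a nowhere-zero
4-flow and such that the three edges of the cut have the same value in the given flow.

Proof.  Let `f` be a nowhere-zero `ℤ₂ × ℤ₂`-flow of `G + uv` and `c = f(uv)`.  The edges of `G` with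
a value different from `c` form an even set, and it is the support of the 2-flow of a
`1/2`-flow-pair if and only if it meets all 3-edge-cuts (starting files, Hoffman's theorem).

* If a 3-edge-cut has a side which has a nowhere-zero 4-flow (the other side being contracted), and
  is not the star of a vertex, then this side is contracted, the smaller graph has a
  `1/2`-flow-pair by induction, and it is extended to the side: every admissible choice of values at
  a vertex of degree three extends to a `1/2`-flow-pair of a graph with a nowhere-zero 4-flow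
  (Hoffman's theorem again, with three prescribed edges).
* Otherwise all 3-edge-cuts which are not stars have two different values, so only the stars of `u`
  and `v` may be constant.  Such a star is recoloured along an even set `Q` through `u` which avoids
  one value `y ≠ c`.  The value `y` is one that occurs on a smallest nontrivial 3-edge-cut `Z`
  separating `u` from `v`; then `Q` does not cross `Z`, and a submodularity argument shows that the
  recolouring makes no other 3-edge-cut constant.
-/

universe u v

namespace Pool.Agent.Results.MP_e59a69_co.NearlyPlusEdge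
open Finset Pool.Agent.H160R2.HF Pool.Agent.TH499.NF
open Pool.Agent.H179R3.HF (IsZ)

/-- Let `G` be bridgeless and `f` a nowhere-zero `ℤ₂ × ℤ₂`-flow of `G + uv`. Suppose that for every
3-edge-cut which is not the star of a vertex one of the two graphs obtained by contracting a side has
a nowhere-zero 4-flow, or `f` is not constant on the cut. Then `G` has a `1/2`-flow-pair. -/
theorem result (V : Type u) (E : Type v) [Fintype V] [Fintype E] [DecidableEq V] [DecidableEq E]
    (G : OrGraph V E) (hB : G.Bridgeless) (u v : V) (f : Option E → ZMod 2 × ZMod 2)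
    (hf : IsZ (addEdge G u v) f) (hz : ∀ o, f o ≠ 0)
    (hC : ∀ X : Finset V, (G.cut X).card = 3 → (∀ z, G.cut X ≠ G.cut {z}) →
      NZ4 (contr G X) ∨ NZ4 (contr G Xᶜ) ∨
        ∃ e ∈ G.cut X, ∃ e' ∈ G.cut X, f (some e) ≠ f (some e')) :
    ∃ φ₂ φ₄ : E → ℤ, G.IsHalfFlowPair φ₂ φ₄ :=
  final G hB u v f hf hz hC

/-- Consequence: bridgeless graphs with a spanning trail from `u` to `v` in which every 3-edge-cut
which is not the star of a vertex has a side with a nowhere-zero 4-flow. -/
theorem spanningTrail (V : Type u) (E : Type v) [Fintype V] [Fintype E] [DecidableEq V]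
    [DecidableEq E] (G : OrGraph V E) (hB : G.Bridgeless) (u v : V) (T : Finset E)
    (hT : ∀ w, Even (G.deg T w + (if u = w then 1 else 0) + (if v = w then 1 else 0)))
    (hconn : ∀ x y, (G.sub T).Reachable x y)
    (h3 : ∀ X : Finset V, (G.cut X).card = 3 → (∀ z, G.cut X ≠ G.cut {z}) →
      NZ4 (contr G X) ∨ NZ4 (contr G Xᶜ)) :
    ∃ φ₂ φ₄ : E → ℤ, G.IsHalfFlowPair φ₂ φ₄ :=
  trail G hB u v T hT hconn h3

/-- Consequence: bridgeless cubic graphs with a 2-factor `F` having at most two odd circuits such that
every 3-edge-cut which is disjoint from `F` has a side with a nowhere-zero 4-flow. -/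
theorem oddnessTwo (V : Type u) (E : Type v) [Fintype V] [Fintype E] [DecidableEq V] [DecidableEq E]
    (G : OrGraph V E) (hB : G.Bridgeless) (hc : G.Cubic) (F : Finset E) (hF : G.IsTwoFactor F)
    (hodd : G.oddCount F ≤ 2)
    (hC : ∀ X : Finset V, (G.cut X).card = 3 → (∀ e ∈ G.cut X, e ∉ F) →
      NZ4 (contr G X) ∨ NZ4 (contr G Xᶜ)) :
    ∃ φ₂ φ₄ : E → ℤ, G.IsHalfFlowPair φ₂ φ₄ :=
  cubic G hB hc F hF hodd hC

/-- The extension theorem used in the proof: in a graph with a nowhere-zero 4-flow every admissible
choice of the values at a vertex `w` with exactly three edges (not counting loops) extends to a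
`1/2`-flow-pair. -/
theorem extension (V : Type u) (E : Type v) [Fintype V] [Fintype E] [DecidableEq V] [DecidableEq E]
    (G : OrGraph V E) (hG : NZ4 G) (w : V) (hw : (G.cut {w}).card = 3) (α β : E → ℤ)
    (hα : ∑ e ∈ G.cut {w}, (if G.t e = w then α e else - α e) = 0)
    (hβ : ∑ e ∈ G.cut {w}, (if G.t e = w then β e else - β e) = 0)
    (hd : ∀ e ∈ G.cut {w}, |α e| ≤ 1 ∧ |β e| ≤ 3 ∧ (α e = 0 → 2 ≤ |β e|)) :
    ∃ φ₂ φ₄ : E → ℤ, G.IsHalfFlowPair φ₂ φ₄ ∧ ∀ e ∈ G.cut {w}, φ₂ e = α e ∧ φ₄ e = β e :=
  extend G hG w hw α β hα hβ hd

end Pool.Agent.Results.MP_e59a69_co.NearlyPlusEdge
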