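import Mathlib
import Pool.Agent.TH60.HE.Main
import Pool.Agent.TH60.HE.Contract
import Pool.Agent.TH60.HE.Cubic
import Pool.Agent.TH60.HE.VMain

/-!
# Prescribing the values of a `1/2`-flow-pair at an edge or at a vertex of degree three

If every bridgeless graph without edge cuts with exactly two edges has a `1/2`-flow-pair, then in
every bridgeless graph every pair of values allowed by the definition can be prescribed at every
edge, and at every vertex of degree three every triple of allowed pairs of values with zero sums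
can be prescribed up to the order.  The graphs which transfer the statements are obtained from the
Petersen graph, by replacing its fifteen edges by copies of the given graph cut open at the given
edge, or its ten vertices by copies of the given graph without the given vertex; in every
`1/2`-flow-pair of the Petersen graph edges of all six types and vertices of all five types occur.
-/

set_option autoImplicit false

namespace Pool.Agent.Results.MP_e59a69_co.PrescribedValues
open Pool.Agent.H160R2.HF Pool.Agent.TH60.HE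

/-- `G` has a `1/2`-flow-pair. -/
def HasPair {V E : Type} [Fintype V] [Fintype E] [DecidableEq V] [DecidableEq E]
    (G : OrGraph V E) : Prop :=
  ∃ φ₂ φ₄ : E → ℤ, G.IsHalfFlowPair φ₂ φ₄

/-- The pair of values `(x, y)` is allowed on an edge by the definition of a `1/2`-flow-pair. -/
def Permitted (x y : ℤ) : Prop := |x| ≤ 1 ∧ |y| ≤ 3 ∧ (x = 0 → 2 ≤ |y|)

/-- Every permitted pair of values `(x, y)` is taken at the edge `e` by some `1/2`-flow-pair of
`G`. -/
def AllValuesAt {V E : Type} [Fintype V] [Fintype E] [DecidableEq V] [DecidableEq E]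
    (G : OrGraph V E) (e : E) : Prop :=
  ∀ x y : ℤ, Permitted x y → ∃ φ₂ φ₄ : E → ℤ, G.IsHalfFlowPair φ₂ φ₄ ∧ φ₂ e = x ∧ φ₄ e = y

/-- The flow `φ` carries along the edge `e` the amount `out G v φ e` out of the end `v` of `e`. -/
def out {V E : Type} [DecidableEq V] (G : OrGraph V E) (v : V) (φ : E → ℤ) (e : E) : ℤ :=
  if G.t e = v then φ e else -φ e

/-- For all permitted pairs `(x₀, y₀)`, `(x₁, y₁)`, `(x₂, y₂)` with `x₀ + x₁ + x₂ = 0` and
`y₀ + y₁ + y₂ = 0` some `1/2`-flow-pair of `G` has the outflows `(xᵢ, yᵢ)` at `v` along the three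
edges `g 0`, `g 1`, `g 2` taken in some order. -/
def AllTriplesAt {V E : Type} [Fintype V] [Fintype E] [DecidableEq V] [DecidableEq E]
    (G : OrGraph V E) (v : V) (g : Fin 3 → E) : Prop :=
  ∀ x y : Fin 3 → ℤ, (∀ i, Permitted (x i) (y i)) → ∑ i, x i = 0 → ∑ i, y i = 0 →
    ∃ (σ : Equiv.Perm (Fin 3)) (φ₂ φ₄ : E → ℤ), G.IsHalfFlowPair φ₂ φ₄ ∧
      ∀ i, out G v φ₂ (g (σ i)) = x i ∧ out G v φ₄ (g (σ i)) = y i

/-- Existence of `1/2`-flow-pairs is equivalent to existence with prescribed values. -/
theorem result :
    (∀ (V E : Type) [Fintype V] [Fintype E] [DecidableEq V] [DecidableEq E] (G : OrGraph V E)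
      (e : E), G.Bridgeless → (substitute G e).Bridgeless ∧ (G.Cubic → (substitute G e).Cubic) ∧
        (HasPair (substitute G e) → AllValuesAt G e)) ∧
    ((∀ (V E : Type) [Fintype V] [Fintype E] [DecidableEq V] [DecidableEq E] (G : OrGraph V E),
        G.Bridgeless → (∀ X : Finset V, (G.cut X).card ≠ 2) → HasPair G) ↔
      (∀ (V E : Type) [Fintype V] [Fintype E] [DecidableEq V] [DecidableEq E] (G : OrGraph V E),
        G.Bridgeless → HasPair G ∧ (∀ e, AllValuesAt G e) ∧
          ∀ (v : V) (g : Fin 3 → E), Function.Injective g → G.cut {v} = Finset.univ.image g →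
            AllTriplesAt G v g)) := by
  have transfer : ∀ (V E : Type) [Fintype V] [Fintype E] [DecidableEq V] [DecidableEq E]
      (G : OrGraph V E) (e : E), G.Bridgeless → (substitute G e).Bridgeless ∧
        (G.Cubic → (substitute G e).Cubic) ∧ (HasPair (substitute G e) → AllValuesAt G e) := by
    intro V E _ _ _ _ G e hG
    refine ⟨substitute_bridgeless G hG e, fun h => substitute_cubic G h e, ?_⟩
    rintro ⟨a, b, h⟩ x y hxy
    exact prescribe G e h x y hxy.1 hxy.2.1 hxy.2.2
  refine ⟨transfer, fun H => ?_, fun H V E _ _ _ _ G hG _ => (H V E G hG).1⟩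
  have H' : ∀ (V E : Type) [Fintype V] [Fintype E] [DecidableEq V] [DecidableEq E]
      (G : OrGraph V E), G.Bridgeless → HasPair G := fun V E _ _ _ _ G hG =>
    pair_of (fun K hK h2 => H V E K hK h2) _ G rfl hG
  intro V E _ _ _ _ G hG
  refine ⟨H' V E G hG, fun e => (transfer V E G e hG).2.2 (H' _ _ _ (transfer V E G e hG).1), ?_⟩
  intro v g hg hc x y hxy hx hy
  have hp : ∀ i, Function.invFun g (g i) = i := Function.leftInverse_invFun hg
  obtain ⟨a, b, hab⟩ := H' _ _ _ (vsub_bridgeless (p := Function.invFun g) hG hg hc hp)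
  obtain ⟨σ, φ₂, φ₄, h1, h2⟩ := vprescribe hg hc hp hab x y hxy hx hy
  refine ⟨σ, φ₂, φ₄, h1, fun i => ?_⟩
  have h3 := h2 i
  have h4 : ∀ (φ : E → ℤ) (e : E), out G v φ e = so G v e * φ e := by
    intro φ e
    unfold out so
    split_ifs <;> ring
  rw [h4, h4]
  exact h3

end Pool.Agent.Results.MP_e59a69_co.PrescribedValues
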